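import Mathlib

/-! A family of functions of regular uncountable size all of whose large subfamilies are
unbounded. -/

namespace Pool.Agent.Lib.MP_f79ffc_lc.U

open Cardinal Filter

/-- the set is bounded modulo finite -/
def EvBdd (S : Set (ℕ → ℕ)) : Prop := ∃ g : ℕ → ℕ, ∀ f ∈ S, ∀ᶠ n in atTop, f n ≤ g n

theorem not_evBdd_univ : ¬ EvBdd Set.univ := by
  rintro ⟨g, hg⟩
  obtain ⟨n, hn⟩ := (hg (fun n => g n + 1) trivial).exists
  omega

theorem evBdd_of_countable {S : Set (ℕ → ℕ)} (h : S.Countable) : EvBdd S := by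
  rcases S.eq_empty_or_nonempty with rfl | hne
  · exact ⟨fun _ => 0, fun _ h => h.elim⟩
  obtain ⟨e, rfl⟩ := h.exists_eq_range hne
  refine ⟨fun n => (Finset.range (n + 1)).sup fun k => e k n, ?_⟩
  rintro _ ⟨k, rfl⟩
  filter_upwards [eventually_ge_atTop k] with n hn
  exact Finset.le_sup (f := fun k => e k n) (Finset.mem_range.2 (by omega))

theorem exists_bchain' : ∃ (ι : Type) (f : ι → ℕ → ℕ), (#ι).IsRegular ∧ ℵ₀ < #ι ∧ #ι ≤ 𝔠 ∧
    ∀ A : Set ι, #A = #ι → ∀ m, ∃ n, m ≤ n ∧ ((fun i => f i n) '' A).Infinite := by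
  let U : Set Cardinal := {c | ∃ S : Set (ℕ → ℕ), #S = c ∧ ¬ EvBdd S}
  obtain ⟨S, hS, hU⟩ : sInf U ∈ U := csInf_mem ⟨_, Set.univ, rfl, not_evBdd_univ⟩
  have hmin : ∀ T : Set (ℕ → ℕ), #T < #S → EvBdd T := fun T hT => by
    by_contra hc
    exact absurd (hS ▸ csInf_le' (show #T ∈ U from ⟨T, rfl, hc⟩)) (not_le.2 hT)
  have h0 : ℵ₀ < #S := lt_of_not_ge fun h =>
    hU (evBdd_of_countable (le_aleph0_iff_set_countable.1 h))
  have hι : #(#S).ord.ToType = #S := mk_ord_toType _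
  obtain ⟨e⟩ := Cardinal.eq.1 hι
  have hI : ∀ a : (#S).ord.ToType, #(Set.Iic a) < #S := fun a => by
    have := mk_Iic_lt a (by simp) (h0.le.trans hι.ge)
    rwa [hι] at this
  have hb : ∀ a : (#S).ord.ToType, EvBdd ((fun b => (e b).1) '' Set.Iic a) := fun a =>
    hmin _ (mk_image_le.trans_lt (hI a))
  choose h hh using hb
  have key : ∀ A : Set (#S).ord.ToType, IsCofinal A → ¬ EvBdd (h '' A) := by
    rintro A hA ⟨g, hg⟩
    refine hU ⟨g, fun f hf => ?_⟩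
    obtain ⟨a, ha, h1⟩ := hA (e.symm ⟨f, hf⟩)
    filter_upwards [hh a f ⟨_, h1, by simp⟩, hg _ ⟨a, ha, rfl⟩] with n h2 h3 using h2.trans h3
  refine ⟨(#S).ord.ToType, h, ?_, h0.trans_eq hι.symm,
    hι.le.trans ((mk_set_le S).trans (by simp)), fun A hA m => ?_⟩
  · rw [hι]
    refine ⟨h0.le, ?_⟩
    rw [← Ordinal.cof_toType]
    obtain ⟨A, h1, h2⟩ := Order.exists_cof_eq (#S).ord.ToType
    rw [← h2]
    exact le_of_not_gt fun h3 => key A h1 (hmin _ (mk_image_le.trans_lt h3))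
  · have h1 : IsCofinal A := fun b => by
      by_contra hc
      push Not at hc
      have h2 : A ⊆ Set.Iic b := fun a ha => (hc a ha).le
      exact absurd ((mk_le_mk_of_subset h2).trans_lt (hI b)) (by rw [hA, hι]; exact lt_irrefl _)
    by_contra hc
    push Not at hc
    have h2 : ∀ n, ∃ k, m ≤ n → ∀ a ∈ A, h a n ≤ k := fun n => by
      by_cases hn : m ≤ n
      · obtain ⟨k, hk⟩ := (hc n hn).bddAbove
        exact ⟨k, fun _ a ha => hk ⟨a, ha, rfl⟩⟩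
      · exact ⟨0, fun h => absurd h hn⟩
    choose g hg using h2
    refine key A h1 ⟨g, ?_⟩
    rintro _ ⟨a, ha, rfl⟩
    filter_upwards [eventually_ge_atTop m] with n hn using hg n hn a ha

theorem exists_bchain : ∃ (ι : Type) (f : ι → ℕ → ℕ), (#ι).IsRegular ∧ ℵ₀ < #ι ∧
    ∀ A : Set ι, #A = #ι → ∀ m, ∃ n, m ≤ n ∧ ((fun i => f i n) '' A).Infinite := by
  obtain ⟨ι, f, h1, h2, -, h3⟩ := exists_bchain'
  exact ⟨ι, f, h1, h2, h3⟩

end Pool.Agent.Lib.MP_f79ffc_lc.U
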