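import Pool.Agent.Lib.MP_f79ffc_lc.U.M.BDefs

/-! Disjoint refinements and names for branches of trees of cells. -/

namespace Pool.Agent.Lib.MP_f79ffc_lc.U

variable {A : Type} [CompleteBooleanAlgebra A]

/-- disjoint refinement with the same supremum -/
theorem exists_sel {κ : Type} (a : κ → A) : ∃ b : κ → A, (∀ t, b t ≤ a t) ∧
    (∀ t t', t ≠ t' → b t ⊓ b t' = ⊥) ∧ ⨆ t, a t ≤ ⨆ t, b t := by
  obtain ⟨_, _⟩ := exists_wellFoundedLT κ
  refine ⟨fun t => a t ⊓ ⨅ u, ⨅ _ : u < t, (a u)ᶜ, fun t => inf_le_left, fun t t' h => ?_,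
    le_of_forall_inf fun x hx h => ?_⟩
  · have key : ∀ t t', t < t' → (a t ⊓ ⨅ u, ⨅ _ : u < t, (a u)ᶜ) ⊓
        (a t' ⊓ ⨅ u, ⨅ _ : u < t', (a u)ᶜ) = ⊥ := fun t t' h =>
      le_bot_iff.1 ((inf_le_inf inf_le_left (inf_le_right.trans (iInf₂_le t h))).trans
        inf_compl_eq_bot.le)
    rcases lt_or_gt_of_ne h with h | h
    · exact key t t' h
    · rw [inf_comm]
      exact key t' t h
  · obtain ⟨t, ht, hm⟩ := wellFounded_lt.has_min {t | x ⊓ a t ≠ ⊥} (exists_inf_ne_bot_of_le hx h)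
    refine ne_bot_of_le (le_inf inf_le_left (le_iSup_of_le t (le_inf inf_le_right
      (le_iInf₂ fun u hu => inf_le_left.trans ?_)))) ht
    rw [le_compl_iff_disjoint_right, disjoint_iff]
    by_contra hc
    exact hm u hc hu

theorem inC_anti (x : ℕ → A) {s t : List Bool} (h : s <+: t) : inC x t ≤ inC x s :=
  le_inC.2 fun n hn => by
    rw [h.getElem hn]
    exact le_inC.1 le_rfl n _

theorem prefix_of_inC {x : ℕ → A} {s t : List Bool} (h : inC x s ⊓ inC x t ≠ ⊥)
    (hl : s.length ≤ t.length) : s <+: t := by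
  rw [List.prefix_iff_getElem]
  refine ⟨hl, fun n hn => ?_⟩
  by_contra hc
  refine h (le_bot_iff.1 ((inf_le_inf (le_inC.1 le_rfl n hn)
    (le_inC.1 le_rfl n (hn.trans_le hl))).trans ?_))
  revert hc
  cases s[n] <;> cases t[n]'(hn.trans_le hl) <;> simp [lit]

/-- a name for a branch through a tree without leaves -/
theorem exists_branch {p : A} (D : ℕ → List Bool → A) (h0 : p ≤ D 0 [])
    (hs : ∀ k s, p ⊓ D k s ≤ ⨆ t, ⨆ _ : s <+: t ∧ s.length < t.length, D (k + 1) t) :
    ∃ x : ℕ → A, ∀ k, p ≤ ⨆ s, ⨆ _ : k ≤ s.length, D k s ⊓ inC x s := by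
  choose b b1 b2 b3 using fun k s =>
    exists_sel fun t => ⨆ _ : s <+: t ∧ s.length < t.length, D (k + 1) t
  let c : ℕ → List Bool → A := fun k =>
    Nat.rec (fun s => ⨆ _ : s = [], p) (fun k c t => ⨆ s, c s ⊓ b k s t) k
  have c0 : ∀ s, c 0 s = ⨆ _ : s = [], p := fun _ => rfl
  have cs : ∀ k t, c (k + 1) t = ⨆ s, c k s ⊓ b k s t := fun _ _ => rfl
  have bp : ∀ k s t, b k s t ≠ ⊥ → s <+: t ∧ s.length < t.length := fun k s t h => by
    by_contra hc
    exact h (le_bot_iff.1 ((b1 k s t).trans (iSup_le fun e => absurd e hc)))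
  have c1 : ∀ k s, c k s ≤ p ⊓ D k s := fun k => by
    induction k with
    | zero => exact fun s => iSup_le fun e => le_inf le_rfl (e ▸ h0)
    | succ k ih =>
      intro t
      refine iSup_le fun s => inf_le_inf ((ih s).trans inf_le_left) ?_
      exact (b1 k s t).trans (iSup_le fun _ => le_rfl)
  have c2 : ∀ k s s', c k s ⊓ c k s' ≠ ⊥ → s = s' := fun k => by
    induction k with
    | zero =>
      intro s s' h
      obtain ⟨e, -⟩ := exists_ne_bot (ne_bot_of_le inf_le_left h)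
      obtain ⟨e', -⟩ := exists_ne_bot (ne_bot_of_le inf_le_right h)
      rw [e, e']
    | succ k ih =>
      intro t t' h
      obtain ⟨s', h1⟩ := exists_inf_ne_bot h
      rw [inf_comm] at h1
      obtain ⟨s, h2⟩ := exists_inf_ne_bot h1
      obtain rfl := ih s' s (ne_bot_of_le (inf_le_inf inf_le_left inf_le_left) h2)
      by_contra hc
      exact ne_bot_of_le (inf_le_inf inf_le_right inf_le_right) h2 (b2 k s' t' t (Ne.symm hc))
  have c3 : ∀ k, p ≤ ⨆ s, c k s := fun k => by
    induction k with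
    | zero => exact le_iSup_of_le [] (le_iSup (fun _ : ([] : List Bool) = [] => p) rfl)
    | succ k ih =>
      refine ih.trans (iSup_le fun s => ?_)
      refine (le_inf le_rfl ((c1 k s).trans ((hs k s).trans (b3 k s)))).trans ?_
      rw [inf_iSup_eq]
      exact iSup_mono fun t => le_iSup (fun s => c k s ⊓ b k s t) s
  have c4 : ∀ k s, c k s ≠ ⊥ → k ≤ s.length := fun k => by
    induction k with
    | zero => exact fun _ _ => Nat.zero_le _
    | succ k ih =>
      intro t h
      obtain ⟨s, h1⟩ := exists_ne_bot h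
      exact (ih s (ne_bot_of_le inf_le_left h1)).trans_lt (bp _ _ _ (ne_bot_of_le inf_le_right h1)).2
  have c5 : ∀ k s l, k ≤ l → ∀ t, c k s ⊓ c l t ≠ ⊥ → s <+: t := fun k s l hl => by
    induction hl with
    | refl => exact fun t h => c2 k s t h ▸ List.prefix_rfl
    | step _ ih =>
      intro t h
      obtain ⟨u, h1⟩ := exists_inf_ne_bot h
      exact (ih u (ne_bot_of_le (inf_le_inf_left _ inf_le_left) h1)).trans
        (bp _ _ _ (ne_bot_of_le (inf_le_right.trans inf_le_right) h1)).1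
  refine ⟨fun n => ⨆ k, ⨆ s : List Bool, ⨆ _ : s[n]? = some true, c k s, fun k =>
    (c3 k).trans (iSup_mono fun s => ?_)⟩
  rcases eq_or_ne (c k s) ⊥ with h | h
  · exact h.le.trans bot_le
  refine le_iSup_of_le (c4 k s h) (le_inf ((c1 k s).trans inf_le_right) (le_inC.2 fun n hn => ?_))
  cases e : s[n] with
  | true => exact le_iSup_of_le k (le_iSup₂_of_le s (by rw [List.getElem?_eq_getElem hn, e]) le_rfl)
  | false =>
    refine le_compl_iff_disjoint_right.2 (disjoint_iff.2 ?_)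
    by_contra hc
    obtain ⟨l, h1⟩ := exists_inf_ne_bot hc
    obtain ⟨t, h2⟩ := exists_inf_ne_bot h1
    obtain ⟨h3, h4⟩ := exists_inf_ne_bot h2
    obtain ⟨h5, h6⟩ := List.getElem?_eq_some_iff.1 h3
    rcases le_total k l with h7 | h7
    · rw [(c5 k s l h7 t h4).getElem hn, h6] at e
      exact absurd e (by simp)
    · rw [inf_comm] at h4
      rw [(c5 l t k h7 s h4).getElem h5, e] at h6
      exact absurd h6 (by simp)

end Pool.Agent.Lib.MP_f79ffc_lc.U
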