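import Pool.Agent.Lib.MP_f79ffc_lc.U.SysL
import Pool.Agent.Lib.MP_f79ffc_lc.U.S.BCh
import Pool.Agent.Lib.MP_f79ffc_lc.U.S.Br
import Pool.Agent.Lib.MP_f79ffc_lc.R.Lam

/-! In an algebra with the fraction property a fixed family of null sets escapes every cover of
measure at most one half. -/

namespace Pool.Agent.Lib.MP_f79ffc_lc.U

open Pool.Agent.Lib.MP_f79ffc_lc.R Cardinal MeasureTheory

open Classical in
/-- the cells of length `N` inside `S` -/
noncomputable def cells (N : ℕ) (S : Set Pt) : Finset (List Bool) :=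
  (List.finite_length_eq Bool N).toFinset.filter fun s => cylS s ⊆ S

theorem mem_cells {N : ℕ} {S : Set Pt} {s : List Bool} :
    s ∈ cells N S ↔ s.length = N ∧ cylS s ⊆ S := by simp [cells]

/-- `S` is a union of cells of length `N` -/
def Lvl (N : ℕ) (S : Set Pt) : Prop := ∀ y ∈ S, cylS (res y N) ⊆ S

theorem Lvl.mono {N M : ℕ} {S : Set Pt} (h : Lvl N S) (H : N ≤ M) : Lvl M S :=
  fun y hy => (cylS_anti (res_prefix y H)).trans (h y hy)

theorem Lvl.inter {N : ℕ} {S T : Set Pt} (h : Lvl N S) (h' : Lvl N T) : Lvl N (S ∩ T) :=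
  fun y hy => Set.subset_inter (h y hy.1) (h' y hy.2)

theorem Lvl.compl {N : ℕ} {S : Set Pt} (h : Lvl N S) : Lvl N Sᶜ := fun y hy z hz h1 => by
  have e : res z N = res y N := by simpa [cylS] using hz
  exact hy (h z h1 (e ▸ mem_cylS_res y N))

theorem lvl_cylS (s : List Bool) : Lvl s.length (cylS s) := fun y hy => by
  rw [show res y s.length = s from hy]

theorem lvl_Zs (k n : ℕ) : Lvl (k + n + 2) (Zs k n) := fun y hy z hz j h1 h2 => by
  rw [mem_cylS.1 hz j (by simpa using h2), getElem_res]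
  exact hy j h1 h2

theorem Lvl.eq {N : ℕ} {S : Set Pt} (h : Lvl N S) : S = ⋃ s ∈ cells N S, cylS s :=
  Set.Subset.antisymm (fun y hy => Set.mem_biUnion
    (show res y N ∈ cells N S from mem_cells.2 ⟨by simp, h y hy⟩) (mem_cylS_res y N))
    (Set.iUnion₂_subset fun _ hs => (mem_cells.1 hs).2)

theorem Lvl.real_inter {N : ℕ} {S T : Set Pt} (h : Lvl N S) (hT : MeasurableSet T) :
    lam.real (T ∩ S) = ∑ s ∈ cells N S, lam.real (T ∩ cylS s) := by
  rw [← measureReal_biUnion_finset (fun s hs t ht e => Set.disjoint_left.2 fun y h1 h2 =>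
      e (eq_of_mem_cylS h1.2 h2.2 ((mem_cells.1 hs).1.trans (mem_cells.1 ht).1.symm)))
    fun s _ => hT.inter (measurableSet_cylS s), ← Set.inter_iUnion₂, ← h.eq]

theorem Lvl.real {N : ℕ} {S : Set Pt} (h : Lvl N S) :
    lam.real S = ∑ s ∈ cells N S, (1 / 2 : ℝ) ^ s.length := by
  simpa only [Set.univ_inter, lam_cylS] using h.real_inter MeasurableSet.univ

/-- independent blocks -/
def Gs (n k : ℕ) : Set Pt := Zs (k * (n + 2)) n

theorem lvl_Gs (n k : ℕ) : Lvl ((k + 1) * (n + 2)) (Gs n k) :=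
  (lvl_Zs _ _).mono (by rw [add_mul]; omega)

theorem lam_iInter_Gs (n : ℕ) (V : Finset ℕ) :
    lam.real (⋂ k ∈ V, (Gs n k)ᶜ) = (1 - (1 / 2) ^ (n + 2)) ^ V.card := by
  induction V using Finset.induction_on_max with
  | empty => simp
  | insert k V hV ih =>
    have h1 : Lvl (k * (n + 2)) (⋂ k ∈ V, (Gs n k)ᶜ) := fun y hy =>
      Set.subset_iInter₂ fun l hl => ((lvl_Gs n l).compl.mono
        (Nat.mul_le_mul_right _ (hV l hl))) y (Set.mem_iInter₂.1 hy l hl)
    have h2 : lam.real (Gs n k ∩ ⋂ k ∈ V, (Gs n k)ᶜ) =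
        lam.real (⋂ k ∈ V, (Gs n k)ᶜ) * (1 / 2) ^ (n + 2) := by
      rw [h1.real_inter (T := Gs n k) (measurableSet_Zs _ _), h1.real, Finset.sum_mul]
      refine Finset.sum_congr rfl fun s hs => ?_
      rw [Gs, lam_inter_cylS s (measurableSet_Zs _ _), ← lam_Zs (k * (n + 2) - s.length) n]
      congr 2
      exact Set.ext fun y => app_mem_Zs (mem_cells.1 hs).1.le
    have h3 := measureReal_inter_add_sdiff (μ := lam) (s := ⋂ k ∈ V, (Gs n k)ᶜ)
      (measurableSet_Zs (k * (n + 2)) n)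
    rw [Finset.card_insert_of_notMem fun h => lt_irrefl _ (hV k h), pow_succ, ← ih,
      Finset.set_biInter_insert, Set.inter_comm, ← Set.sdiff_eq]
    rw [Set.inter_comm] at h2
    unfold Gs at *
    linarith

section
variable {A : Type} [CompleteBooleanAlgebra A] (w : List Bool → A)

/-- the part of `S` not covered by `w` has measure less than `η` -/
noncomputable def Nl (η : ℝ) (S : Set Pt) : A :=
  ⨆ F : Finset (List Bool), ⨆ _ : lam.real (S \ ⋃ t ∈ F, cylS t) < η, F.inf w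

/-- the part of `S` not covered by `w` is null -/
noncomputable def Nul (S : Set Pt) : A := ⨅ η : ℚ, ⨅ _ : 0 < η, Nl w η S

variable {w}

theorem Nl_mono {η η' : ℝ} {S S' : Set Pt} (h : η ≤ η') (hS : S' ⊆ S) : Nl w η S ≤ Nl w η' S' :=
  iSup₂_le fun F hF => le_iSup₂_of_le F
    (((measureReal_mono (Set.sdiff_subset_sdiff_left hS)).trans_lt hF).trans_le h) le_rfl

theorem Nl_union (η η' : ℝ) (S S' : Set Pt) :
    Nl w η S ⊓ Nl w η' S' ≤ Nl w (η + η') (S ∪ S') := by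
  classical
  simp only [Nl, iSup_inf_eq, inf_iSup_eq]
  refine iSup₂_le fun F' hF' => iSup₂_le fun F hF => le_iSup₂_of_le (F ∪ F') ?_ Finset.inf_union.ge
  refine lt_of_le_of_lt ((measureReal_mono ?_).trans (measureReal_union_le _ _)) (add_lt_add hF hF')
  rw [Finset.set_biUnion_union]
  rintro y ⟨h | h, h'⟩
  · exact Or.inl ⟨h, fun e => h' (Or.inl e)⟩
  · exact Or.inr ⟨h, fun e => h' (Or.inr e)⟩

theorem Nl_top {η : ℝ} {S : Set Pt} (h : lam.real S < η) : Nl w η S = ⊤ :=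
  top_unique (le_iSup₂_of_le ∅ (by simpa using h) (by simp))

theorem Nul_le {η : ℝ} (h : 0 < η) (S : Set Pt) : Nul w S ≤ Nl w η S := by
  obtain ⟨r, h1, h2⟩ := exists_rat_btwn h
  exact (iInf₂_le r (by exact_mod_cast h1)).trans (Nl_mono h2.le subset_rfl)

theorem le_Nul {S : Set Pt} {t : List Bool} (h : S ⊆ cylS t) : w t ≤ Nul w S :=
  le_iInf₂ fun η hη => le_iSup₂_of_le {t}
    (by simpa [Set.sdiff_eq_empty.2 h] using hη) (by simp)

theorem Nul_union (S S' : Set Pt) : Nul w S ⊓ Nul w S' ≤ Nul w (S ∪ S') :=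
  le_iInf₂ fun η hη => by
    have h : (0 : ℝ) < η / 2 := by positivity
    exact (inf_le_inf (Nul_le h S) (Nul_le h S')).trans
      ((Nl_union _ _ _ _).trans (Nl_mono (by linarith) subset_rfl))

theorem Nul_biUnion {κ : Type} (F : Finset κ) (S : κ → Set Pt) :
    (F.inf fun j => Nul w (S j)) ≤ Nul w (⋃ j ∈ F, S j) := by
  classical
  induction F using Finset.induction_on with
  | empty => exact le_iInf₂ fun η hη => (Nl_top (by simpa using hη)).ge.trans' le_top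
  | insert j F _ ih =>
    rw [Finset.inf_insert, Finset.set_biUnion_insert]
    exact (inf_le_inf_left _ ih).trans (Nul_union _ _)

theorem Lvl.compl_Nul {N : ℕ} {S : Set Pt} (h : Lvl N S) :
    (Nul w S)ᶜ ≤ ⨆ t, ⨆ _ : t ∈ cells N S, (Nul w (cylS t))ᶜ := by
  rw [compl_le_iff_compl_le]
  simp only [compl_iSup, compl_compl]
  refine le_trans (Finset.le_inf fun t ht => iInf₂_le t ht) ((Nul_biUnion _ cylS).trans ?_)
  rw [← h.eq]

theorem IsCovL.inf_Nl {p : A} (h : IsCovL p (1 / 2) w) : p ⊓ Nl w (1 / 2) Set.univ = ⊥ := by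
  by_contra hc
  obtain ⟨F, h1⟩ := exists_inf_ne_bot hc
  obtain ⟨h2, h3⟩ := exists_inf_ne_bot h1
  have h4 : ∑ s ∈ F, (1 / 2 : ℝ) ^ s.length ≤ 1 / 2 := by
    have := (Rat.cast_le (K := ℝ)).2 (h F h3)
    push_cast at this
    exact this
  have h5 := measureReal_biUnion_finset_le (μ := lam) F cylS
  rw [← Set.compl_eq_univ_sdiff, probReal_compl_eq_one_sub
    (Finset.measurableSet_biUnion F fun s _ => measurableSet_cylS s)] at h2
  simp only [lam_cylS] at h5
  linarith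

end

/-- the fraction property of one algebra for families indexed by `ι` -/
def KA (A : Type) [CompleteBooleanAlgebra A] (ι : Type) : Prop :=
  ∀ (a : ι → A) (A₀ : Set ι), #A₀ = #ι → (∀ k ∈ A₀, a k ≠ ⊥) → Frac A₀ fun F => F.inf a ≠ ⊥

theorem Sys.K.ka {I : Type} [Preorder I] {S : Sys I} (h : S.K) {ι : Type} (h1 : (#ι).IsRegular)
    (h2 : ℵ₀ < #ι) (i : I) : KA (S.X i) ι := fun a A₀ h3 h4 =>
  h ι h1 h2 i _ (Sys.Gn.var i a) A₀ h3 fun k hk => by simpa using h4 k hk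

/-- the cells of the `n`-th set of the null set coded by `f` -/
noncomputable def Cs (f : ℕ → ℕ) (n : ℕ) : Finset (List Bool) :=
  cells ((f n + 1) * (n + 2)) (Gs n (f n))

theorem sum_Cs (f : ℕ → ℕ) (n : ℕ) :
    ∑ s ∈ Cs f n, (1 / 2 : ℚ) ^ s.length ≤ (1 / 2 : ℚ) ^ n := by
  have h := (lvl_Gs n (f n)).real
  rw [Gs, lam_Zs] at h
  have h1 : (1 / 2 : ℝ) ^ (n + 2) ≤ (1 / 2) ^ n :=
    pow_le_pow_of_le_one (by norm_num) (by norm_num) (by omega)
  rw [← Rat.cast_le (K := ℝ)]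
  push_cast
  exact h.ge.trans h1

variable {A : Type} [CompleteBooleanAlgebra A] {p : A} {w : List Bool → A}

theorem small_good (hw : IsCovL p (1 / 2) w) (f : ℕ → ℕ)
    (h : ∀ s m, p ⊓ (Nul w (cylS s))ᶜ ≤ ⨆ n, ⨆ _ : m ≤ n, (Nul w (cylS s ∩ Gs n (f n)))ᶜ) :
    ∃ x, p ≤ limC (Cs f) x ⊓ (covL w x)ᶜ := by
  obtain ⟨x, hx⟩ := exists_branch (p := p) (fun k t => ⨆ _ : ∀ j, j < k → ∃ n, j ≤ n ∧
      ∃ s ∈ Cs f n, s <+: t, (Nul w (cylS t))ᶜ)
    (le_iSup_of_le (fun _ h => absurd h (Nat.not_lt_zero _)) (le_compl_iff_disjoint_right.2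
      (disjoint_iff.2 (le_bot_iff.1 ((inf_le_inf_left _ (by
        rw [cylS_nil]; exact Nul_le (by norm_num) _)).trans hw.inf_Nl.le)))))
    fun k s => by
      refine ((inf_le_inf_left _ (iSup_le fun _ => le_rfl)).trans (h s k)).trans
        (iSup₂_le fun n hn => ?_)
      refine (Lvl.compl_Nul (N := s.length + 1 + (f n + 1) * (n + 2))
        (((lvl_cylS s).mono (by omega)).inter ((lvl_Gs n (f n)).mono (by omega)))).trans
        (iSup₂_le fun t ht => ?_)
      obtain ⟨h1, h2⟩ := mem_cells.1 ht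
      have h3 := app_mem_cylS t fun _ => false
      have h4 : res (app t fun _ => false) t.length = t := h3
      refine le_iSup₂_of_le t ⟨?_, by omega⟩ (le_iSup_of_le (fun j hj => ⟨n, by omega,
        res (app t fun _ => false) ((f n + 1) * (n + 2)),
        mem_cells.2 ⟨by simp, lvl_Gs n (f n) _ (h2 h3).2⟩, ?_⟩) le_rfl)
      · rw [← h4]
        exact (mem_cylS_iff_prefix (by omega)).1 (h2 h3).1
      · conv_rhs => rw [← h4]
        exact res_prefix _ (by omega)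
  refine ⟨x, le_inf (le_iInf fun m => (hx (m + 1)).trans (iSup₂_le fun s _ => ?_)) ?_⟩
  · rw [iSup_inf_eq]
    refine iSup_le fun h1 => ?_
    obtain ⟨n, h2, u, h3, h4⟩ := h1 m (Nat.lt_succ_self m)
    exact le_iSup₂_of_le n h2 (le_iSup₂_of_le u h3 (inf_le_right.trans (inC_anti x h4)))
  · rw [covL, compl_iSup]
    refine le_iInf fun t => (hx t.length).trans (iSup₂_le fun s hs => ?_)
    refine le_compl_iff_disjoint_right.2 (disjoint_iff.2 ?_)
    by_contra hc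
    have h1 : t <+: s := prefix_of_inC (x := x)
      (ne_bot_of_le (le_inf (inf_le_right.trans inf_le_right) (inf_le_left.trans inf_le_right)) hc) hs
    exact hc (le_bot_iff.1 ((inf_le_inf (inf_le_left.trans (iSup_le fun _ => le_rfl))
      (inf_le_left.trans (le_Nul (cylS_anti h1)))).trans compl_inf_eq_bot.le))

theorem small_of {ι : Type} (h1 : (#ι).IsRegular) (h2 : ℵ₀ < #ι) (f : ι → ℕ → ℕ)
    (hf : ∀ A : Set ι, #A = #ι → ∀ m, ∃ n, m ≤ n ∧ ((fun i => f i n) '' A).Infinite)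
    (hK : KA A ι) (hw : IsCovL p (1 / 2) w) :
    ∃ i x, p ≤ limC (Cs (f i)) x ⊓ (covL w x)ᶜ := by
  classical
  by_contra hc
  have key : ∀ i, ∃ c : List Bool × ℕ × ℚ, 0 < c.2.2 ∧ (Nl w c.2.2 (cylS c.1))ᶜ ⊓
      (⨅ n, ⨅ _ : c.2.1 ≤ n, Nul w (cylS c.1 ∩ Gs n (f i n))) ≠ ⊥ := fun i => by
    by_contra h
    refine hc ⟨i, small_good hw (f i) fun s m => inf_le_right.trans ?_⟩
    rw [Nul, compl_iInf]
    refine iSup_le fun η => ?_
    rw [compl_iInf]
    refine iSup_le fun hη => ?_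
    have h3 := not_not.1 fun e => h ⟨(s, m, η), hη, e⟩
    have h4 := le_compl_iff_disjoint_right.2 (disjoint_iff.2 h3)
    simpa only [compl_iInf] using h4
  obtain ⟨⟨s, m, η⟩, A₁, -, h3, h4⟩ := exists_fiber' h1 h2 mk_univ _ fun i _ => key i
  obtain ⟨B, h5, h6, h7⟩ := hK _ A₁ h3 (fun i hi => (h4 i hi).2) (1 / 2) (by norm_num)
  obtain ⟨n, hn, h8⟩ := hf B h6 m
  have hη : (0 : ℝ) < η / 2 := by
    obtain ⟨_, i, hi, -⟩ := h8.nonempty
    have : (0 : ℝ) < η := by exact_mod_cast (h4 i (h5 hi)).1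
    linarith
  have hc0 : (0 : ℝ) < (1 / 2) ^ (n + 2) := by positivity
  have hc1 : (1 / 2 : ℝ) ^ (n + 2) ≤ 1 := pow_le_one₀ (by norm_num) (by norm_num)
  obtain ⟨L, hL⟩ := exists_pow_lt_of_lt_one hη (show 1 - (1 / 2 : ℝ) ^ (n + 2) < 1 by linarith)
  obtain ⟨V, h9, h10⟩ := h8.exists_subset_card_eq (2 * (L + 1))
  obtain ⟨F, h11, h12, h13⟩ : ∃ F : Finset ι, (F : Set ι) ⊆ B ∧ Set.InjOn (fun i => f i n) F ∧
      F.card = 2 * (L + 1) := by
    choose g g1 g2 using fun v : V => h9 v.2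
    have g3 : Function.Injective g := fun u v e => Subtype.ext (by rw [← g2 u, ← g2 v, e])
    refine ⟨Finset.univ.image g, ?_, ?_, by rw [Finset.card_image_of_injective _ g3]; simpa using h10⟩
    · intro i hi
      obtain ⟨v, -, rfl⟩ := Finset.mem_image.1 hi
      exact g1 v
    · intro i hi j hj e
      obtain ⟨u, -, rfl⟩ := Finset.mem_image.1 hi
      obtain ⟨v, -, rfl⟩ := Finset.mem_image.1 hj
      rw [show u = v from Subtype.ext ((g2 u).symm.trans (e.trans (g2 v)))]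
  obtain ⟨F', k1, k2, k3⟩ := h7 F h11
  have k4 : L + 1 ≤ F'.card := by
    rw [h13] at k2
    have : ((L + 1 : ℕ) : ℝ) ≤ F'.card := by push_cast at k2 ⊢; linarith
    exact_mod_cast this
  obtain ⟨i0, hi0⟩ := Finset.card_pos.1 (show 0 < F'.card by omega)
  have k5 : lam.real (⋂ k ∈ F'.image fun i => f i n, (Gs n k)ᶜ) < η / 2 := by
    rw [lam_iInter_Gs, Finset.card_image_of_injOn (h12.mono (Finset.coe_subset.2 k1))]
    exact (pow_le_pow_of_le_one (by linarith) (by linarith) (by omega)).trans_lt hL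
  refine k3 (le_bot_iff.1 (le_trans (le_inf (le_trans (Finset.inf_le hi0) inf_le_left) ?_)
    (compl_inf_eq_bot (a := Nl w η (cylS s))).le))
  refine le_trans (Finset.inf_mono_fun fun i _ => inf_le_right.trans (iInf₂_le n hn))
    ((Nul_biUnion F' _).trans ((Nul_le hη _).trans ((le_inf le_rfl (le_top.trans (Nl_top k5).ge)).trans
      ((Nl_union _ _ _ _).trans (Nl_mono (by linarith) fun y hy => ?_)))))
  by_cases e : ∃ i ∈ F', y ∈ Gs n (f i n)
  · obtain ⟨i, hi, e⟩ := e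
    exact Or.inl (Set.mem_biUnion hi ⟨hy, e⟩)
  · refine Or.inr (Set.mem_iInter₂.2 fun k hk => ?_)
    obtain ⟨i, hi, rfl⟩ := Finset.mem_image.1 hk
    exact fun e' => e ⟨i, hi, e'⟩

/-- the pure form of `add(N) ≤ b` -/
theorem small_pure : ∃ (ι : Type) (C : ι → ℕ → Finset (List Bool)), (#ι).IsRegular ∧ ℵ₀ < #ι ∧
    #ι ≤ 𝔠 ∧ (∀ i n, ∑ s ∈ C i n, (1 / 2 : ℚ) ^ s.length ≤ (1 / 2 : ℚ) ^ n) ∧
    ∀ (A : Type) [CompleteBooleanAlgebra A], KA A ι → ∀ (p : A) (w : List Bool → A),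
      IsCovL p (1 / 2) w → ∃ i x, p ≤ limC (C i) x ⊓ (covL w x)ᶜ := by
  obtain ⟨ι, f, h1, h2, h3, h4⟩ := exists_bchain'
  exact ⟨ι, fun i => Cs (f i), h1, h2, h3, fun i n => sum_Cs _ n,
    fun A _ hK p w hw => small_of h1 h2 f h4 hK hw⟩

end Pool.Agent.Lib.MP_f79ffc_lc.U
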