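import Pool.Agent.Lib.MP_f79ffc_lc.U.C.Cap
import Pool.Agent.Lib.MP_f79ffc_lc.U.S.Small

/-! The final algebra forces that few null sets have a union that is not null. -/

namespace Pool.Agent.Lib.MP_f79ffc_lc.U

open Cardinal

theorem smallAdd_BB : ∃ ι : Type, (#ι).IsRegular ∧ ℵ₀ < #ι ∧ #ι ≤ 𝔠 ∧ SmallAdd BB ι := by
  obtain ⟨ι, C, h1, h2, h3, h4, h5⟩ := small_pure
  refine ⟨ι, h1, h2, h3, C, h4, fun p hp w hw => ?_⟩
  obtain ⟨q, p₀, k1, k2⟩ := exists_jq_le hp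
  obtain ⟨q', E, y, k3⟩ := capture_fun q (mk_le_aleph0.trans aleph0_le_continuum) w
  have k4 : jq q' (E.tr p₀) ≤ p := (jq_tr_le E le_rfl).trans k2
  have k5 : ∀ s, jq q' (y s) ≤ w s := fun s => (k3 s).le.trans inf_le_right
  obtain ⟨i, x, k6⟩ := h5 q'.B (q'.K.ka h1 h2 q'.top) (E.tr p₀) y fun F hF => hw F (by
    refine ne_bot_of_le ?_ (jq_eq_bot.not.2 hF)
    rw [jq_inf, jq_finset_inf]
    exact inf_le_inf k4 (inf_le_right.trans (Finset.inf_mono_fun fun s _ => k5 s)))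
  refine ⟨i, fun n => jq q' (x n), ne_bot_of_le ?_ (jq_eq_bot.not.2 (hm_ne_bot E.tr_inj k1))⟩
  have k7 := jq_mono k6
  rw [jq_inf, jq_limC, jq_compl, jq_covL] at k7
  refine le_inf (le_inf k4 (k7.trans (inf_le_left.trans inf_le_right)))
    ((k7.trans inf_le_right).trans ?_)
  rw [le_compl_iff_disjoint_right, disjoint_iff, inf_right_comm, ← disjoint_iff,
    ← le_compl_iff_disjoint_right, compl_compl, covL, covL, inf_iSup_eq]
  refine iSup_mono fun s => ?_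
  rw [k3, inf_assoc]

end Pool.Agent.Lib.MP_f79ffc_lc.U
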