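import Pool.Agent.Lib.MP_f79ffc_lc.U.S.UnP
import Pool.Agent.Lib.MP_f79ffc_lc.U.A.InV
import Pool.Agent.Lib.MP_f79ffc_lc.U.C.Api

/-! A union of continuum many ground-indexed universally null sets is universally null. -/

namespace Pool.Agent.Lib.MP_f79ffc_lc.U

open Pool.Agent.Lib.MP_5d9fac_lc Cardinal

theorem un_anti {X : (ℕ → BB) → BB} {dl dl' : Mu} {f f' : BB} (h : InV X dl f) (hd : dl ≤ dl')
    (hf : f' ≤ f) : InV X dl' f' := fun x g hg hx => by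
  obtain ⟨q, i, hi, y, h1, h2⟩ := h x g hg (hx.trans (inf_le_inf_right _ hf))
  exact ⟨q, i, hi, y, h1.trans hd, h2⟩

/-- one bound for all the sets -/
theorem un_all {ι : Type} (hι : #ι ≤ 𝔠) (X : ι → (ℕ → BB) → BB) {p : BB} (hp : p ≠ ⊥)
    (hA : ∀ i f, f ≠ ⊥ → f ≤ p → ∃ f1 dl, f1 ≤ f ∧ f1 ≠ ⊥ ∧ InV (X i) dl f1) :
    ∃ (q : Cond) (a : q.B) (dl : Mu), a ≠ ⊥ ∧ jq q a ≤ p ∧ ∀ i, InV (X i) dl (jq q a) := by
  obtain ⟨q, a, ha, hap⟩ := exists_jq_le hp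
  obtain ⟨q', E, h⟩ := capture q hι (fun _ => a) (fun i => {f | ∃ dl, InV (X i) dl f}) fun i =>
    le_of_forall_inf fun f hf hfa => by
      obtain ⟨f1, dl, h1, h2, h3⟩ := hA i f hf (hfa.trans hap)
      exact ne_bot_of_le (le_inf h1 (le_sSup ⟨dl, h3⟩)) h2
  choose C hC h1 h2 using h
  have h3 : ∀ x : Σ i, C i, ∃ dl, InV (X x.1) dl (jq q' x.2) := fun x => by
    obtain ⟨d, ⟨dl, hd⟩, h4⟩ := h2 x.1 x.2 x.2.2
    exact ⟨dl, un_anti hd le_rfl h4⟩
  choose dl hdl using h3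
  obtain ⟨δ, hδ⟩ := Mu.exists_gt' (ι := Σ i, C i) (by
    rw [mk_sigma]
    refine (sum_le_sum _ (fun _ => ℵ₀) fun i => (hC i).le_aleph0).trans ?_
    rw [sum_const']
    exact (mul_le_mul_left hι _).trans continuum_mul_aleph0.le) dl
  refine ⟨q', E.tr a, δ, hm_ne_bot E.tr_inj ha, (jq_tr_le E le_rfl).trans hap,
    fun i x g hg hx => ?_⟩
  have h4 := hx.trans (inf_le_left.trans (jq_mono (h1 i)))
  rw [sSup_eq_iSup', jq_iSup] at h4
  obtain ⟨c, hc⟩ := exists_inf_ne_bot_of_le hg h4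
  obtain ⟨r, j, hj, y, h5, h6⟩ := hdl ⟨i, c⟩ x _ hc
    (le_inf inf_le_right (inf_le_left.trans (hx.trans inf_le_right)))
  exact ⟨r, j, hj, y, h5.trans (hδ _).le,
    ne_bot_of_le (inf_le_inf_right _ (inf_le_inf_right _ inf_le_left)) h6⟩

theorem un_eqv {B : Type} [CompleteBooleanAlgebra B] {g d : B} {x y z : ℕ → B} (h : g ≤ eqv x y)
    (hd : g ≤ d) (e : ∀ n, z n = d ⊓ y n) : g ≤ eqv x z := by
  rw [eqv_le_iff] at h ⊢
  intro n
  rw [h n, e n, ← inf_assoc, inf_eq_left.2 hd]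

/-- UNION -/
theorem bigAdd_of {ι : Type} (hι : #ι ≤ 𝔠) (hA : ∀ (X : (ℕ → BB) → BB) (f : BB), Ext X → f ≠ ⊥ →
    UNb f X → ∃ f1 dl, f1 ≤ f ∧ f1 ≠ ⊥ ∧ InV X dl f1) : BigAdd BB ι := by
  classical
  intro X p hp hX hU m hm ε hε
  obtain ⟨q1, a, δ, ha, hap, hV⟩ := un_all hι X hp fun i f hf hfp =>
    hA _ f (hX i) hf ((hU i).anti hfp)
  choose w hw hcov using fun (i : ι) (k : ℕ) => hU i p le_rfl m hm (ε / 2 ^ (k + 1)) (by positivity)
  obtain ⟨q2, E2, y, hy⟩ := capture_fun q1 (ι := ι × ℕ × (List Bool × ℚ)) (by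
    rw [mk_prod, lift_id, lift_id]
    exact (mul_le_mul' hι mk_le_aleph0).trans continuum_mul_aleph0.le)
    fun z => jq q1 a ⊓ w z.1 z.2.1 z.2.2
  obtain ⟨γ, hγ⟩ := Mu.exists_gt' (ι := Bool) (mk_le_aleph0.trans aleph0_le_continuum)
    fun b => cond b δ (q2.blk q2.top)
  obtain ⟨q3, E3, c₀, h₀, h₁, c, hb, hb', -, hcd, hc⟩ := q2.coh (hγ false) (Finset (List Bool × ℚ))
  obtain ⟨fl, hfl, hall⟩ := exists_fl (List Bool × ℚ)
  let v : ι → ℕ → List Bool × ℚ → q3.S.X c₀ := fun i k t => E3.arr h₀ (y (i, k, t))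
  have hyw : ∀ i k t, jq q2 (y (i, k, t)) ≤ p ⊓ w i k t := fun i k t =>
    (hy _).le.trans (inf_le_right.trans (inf_le_inf_right _ hap))
  have hv : ∀ i k F, F.inf (v i k) ≠ ⊥ → AdmC ε k F := fun i k F hF => by
    have h1 : jq q2 (F.inf fun t => y (i, k, t)) ≠ ⊥ := fun h0 => hF (by
      rw [show F.inf (v i k) = E3.arr h₀ (F.inf fun t => y (i, k, t)) from
        (map_finset_inf _ _ _).symm, jq_eq_bot.1 h0, map_bot])
    have h2 : ∀ t ∈ F, jq q2 (F.inf fun t => y (i, k, t)) ≤ p ⊓ w i k t := fun t ht =>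
      (jq_mono (Finset.inf_le ht)).trans (hyw i k t)
    refine ⟨fun t ht => not_lt.1 fun h0 => h1 (le_bot_iff.1 ?_), ?_⟩
    · exact (h2 t ht).trans ((le_inf inf_le_left ((hw i k).valid t)).trans (hm.neg t.1 h0).le)
    rcases F.eq_empty_or_nonempty with rfl | ⟨t, ht⟩
    · rw [Finset.sum_empty]
      positivity
    · exact (hw i k).cost F (ne_bot_of_le (le_inf ((h2 t ht).trans inf_le_left)
        (Finset.le_inf fun t ht => (h2 t ht).trans inf_le_right)) h1)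
  let a3 : q3.B := E3.tr (E2.tr a)
  have ha3 : jq q3 a3 ≤ jq q1 a := (jq_tr_le E3 le_rfl).trans (jq_tr_le E2 le_rfl)
  refine ⟨jq q3 a3, ha3.trans hap, fun h0 => hm_ne_bot E3.tr_inj (hm_ne_bot E2.tr_inj ha)
    (jq_eq_bot.1 h0), catW ε m fun k F => jq q3 (c k F), isCov_catW _ hε m fun k F F' h => by
      rw [← jq_inf, hcd k F F' h, jq_bot], fun i x => le_of_forall_inf fun g hg hx => ?_⟩
  obtain ⟨q, j, hj, z, hjδ, hz⟩ := hV i x g hg (hx.trans (inf_le_inf_right _ ha3))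
  have hg3 : g ≤ jq q3 a3 := hx.trans inf_le_left
  obtain ⟨q4, E, E', r, hr, -, -, hrb⟩ := exists_common (q₁ := q) (q₂ := q3) (p₁ := ⊤) (p₂ := ⊤)
    (b := g ⊓ eqv x fun n => jq q (q.S.e hj (z n))) (ne_bot_of_le (le_inf (le_inf
      (inf_le_left.trans inf_le_right) (inf_le_left.trans (inf_le_left.trans
        (hg3.trans (jq_mono le_top))))) (inf_le_inf_right _ inf_le_left)) hz)
  have h4 : E'.f c₀ ≤ q4.top := (E'.cut c₀).2 h₁
  have hjc : E.f j ≤ E'.f c₀ := (q4.lt_iff (by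
    rw [E.blk, E'.blk, hb]
    exact hjδ.trans_lt (hγ true))).2 ((E.cut j).2 hj)
  let e := q4.S.e h4
  let z4 : ℕ → q4.S.X (E'.f c₀) := fun n => E.arr hjc (z n)
  let v4 : ℕ → List Bool × ℚ → q4.S.X (E'.f c₀) := fun k t => E'.m.ι c₀ (v i k t)
  have hv4 : ∀ k t, E'.tr (q3.S.e h₁ (v i k t)) = e (v4 k t) := fun k t => E'.tr_cut h₁ _
  have hjv : ∀ k t, jq q4 (e (v4 k t)) = jq q4 ⊤ ⊓ (jq q3 ⊤ ⊓ jq q2 (y (i, k, t))) := fun k t => by
    rw [← hv4, jq_tr, ← jq_tr E3]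
    exact congrArg (fun s => jq q4 ⊤ ⊓ jq q3 s) (E3.e_arr h₀ h₁ _)
  have hrz : jq q4 r ≤ eqv x fun n => jq q4 (e (z4 n)) :=
    un_eqv (hrb.trans inf_le_right) (jq_mono le_top) fun n => by
      rw [← jq_tr E]
      exact congrArg (jq q4) ((E.e_arr hjc h4 _).trans (E.arr_e hj E.top_le _).symm)
  have hrg : jq q4 r ≤ g := hrb.trans inf_le_left
  have H := E'.unb h₁ (hb.trans hb'.symm) (mat_catM hfl c _)
    (unb_catM (fl := fl) (q3.S.e h₁) hc (hv i))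
  simp only [map_catM, hv4] at H
  obtain ⟨k, F, t, hF, ht, h5⟩ := catch_of_unb hfl hall e (v := v4) (fun t => inC z4 t.1) H hr
    fun k => by
      rw [← jq_le_iff]
      change _ ≤ jq q4 (e (cov (v4 k) z4))
      rw [map_cov, jq_cov]
      have h6 : jq q4 r ≤ cov (w i k) fun n => jq q4 (e (z4 n)) :=
        (le_inf hrz (hrg.trans ((le_inf (hg3.trans (ha3.trans hap))
          (hx.trans inf_le_right)).trans (hcov i k x)))).trans (ext_cov _ _ _)
      refine (le_inf le_rfl h6).trans ?_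
      rw [cov, inf_iSup_eq]
      refine iSup_mono fun t => ?_
      beta_reduce
      rw [← inf_assoc, hjv, hy]
      refine inf_le_inf_right _ (le_inf (inf_le_left.trans (jq_mono le_top)) (le_inf
        (inf_le_left.trans (hrg.trans (hg3.trans (jq_mono le_top)))) (le_inf (inf_le_left.trans
          (hrg.trans (hg3.trans ((jq_tr_le E3 le_rfl).trans (jq_mono le_top)))))
            (inf_le_inf_right _ (hrg.trans (hg3.trans ha3))))))
  refine ne_bot_of_le ?_ (jq_eq_bot.not.2 h5)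
  rw [jq_inf, jq_inf, map_inf, jq_inf, map_inC, jq_inC, hjv, jq_tr]
  refine le_inf (inf_le_left.trans (inf_le_left.trans hrg)) (le_iSup_of_le t (le_inf (le_inf ?_ ?_) ?_))
  · exact inf_le_left.trans (inf_le_right.trans (inf_le_right.trans
      (le_iSup₂_of_le k F (le_iSup_of_le ⟨hF, ht⟩ le_rfl))))
  · exact inf_le_right.trans (inf_le_left.trans (inf_le_right.trans (inf_le_right.trans
      ((hyw i k t).trans ((hw i k).valid t)))))
  · refine (inf_le_inf (inf_le_left.trans hrz) (inf_le_right.trans inf_le_right)).trans ?_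
    rw [eqv_comm]
    exact ext_inC t.1 _ _

end Pool.Agent.Lib.MP_f79ffc_lc.U
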