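import Pool.Agent.Lib.MP_f79ffc_lc.U.Sys
import Pool.Agent.Lib.MP_f79ffc_lc.U.M.BDefs
import Pool.Agent.Lib.MP_f79ffc_lc.R.Gen

/-! A generic sequence of finite sets catches longer and longer parts of old covers. -/

namespace Pool.Agent.Lib.MP_f79ffc_lc.U

open Pool.Agent.Lib.MP_5d9fac_lc Filter

variable {A B C P : Type} [CompleteBooleanAlgebra A] [CompleteBooleanAlgebra B]
  [CompleteBooleanAlgebra C] [DecidableEq P]

/-- for some `k ≤ n` the chosen set `c k` is admissible and contains `v k ∩ fl l` -/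
def catM (fl : ℕ → Finset P) (Adm : ℕ → Finset P → Prop) (c : ℕ → Finset P → B) (v : ℕ → P → B)
    (n l : ℕ) : B :=
  ⨆ k, ⨆ _ : k ≤ n, ⨆ F, ⨆ _ : Adm k F, c k F ⊓ (fl l \ F).inf fun t => (v k t)ᶜ

variable {fl : ℕ → Finset P} {Adm : ℕ → Finset P → Prop}

theorem map_catM (f : Hm B C) (c : ℕ → Finset P → B) (v : ℕ → P → B) (n l : ℕ) :
    f (catM fl Adm c v n l) = catM fl Adm (fun k F => f (c k F)) (fun k t => f (v k t)) n l := by
  simp only [catM, _root_.map_iSup, R.hm_inf, map_finset_inf, Function.comp_def, hm_compl]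

theorem mat_catM (hfl : Monotone fl) (c : ℕ → Finset P → B) (v : ℕ → P → B) :
    Mat (catM fl Adm c v) :=
  ⟨fun n _ => biSup_mono fun _ h => h.trans n.le_succ,
    fun _ l => iSup₂_mono fun _ _ => iSup₂_mono fun _ _ => inf_le_inf_left _
      (Finset.inf_mono (Finset.sdiff_subset_sdiff (hfl l.le_succ) subset_rfl))⟩

theorem top_le_atoms (G : Finset P) (v : P → A) :
    (⊤ : A) ≤ ⨆ F : Finset P, F.inf v ⊓ (G \ F).inf fun t => (v t)ᶜ := by
  classical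
  refine R.le_iff_gen.2 (Eventually.of_forall fun U _ => U.mono (le_iSup _
    (G.filter fun t => U.In (v t))) (U.inf ((R.In_finset_inf U _ _).2 fun t ht =>
      (Finset.mem_filter.1 ht).2) ((R.In_finset_inf U _ _).2 fun t ht => U.compl_iff.2 fun h => ?_)))
  exact (Finset.mem_sdiff.1 ht).2 (Finset.mem_filter.2 ⟨(Finset.mem_sdiff.1 ht).1, h⟩)

theorem unb_catM (e : Hm A B) {c : ℕ → Finset P → B} {v : ℕ → P → A}
    (hc : ∀ p : B, p ≠ ⊥ → ∃ (n : ℕ) (p₀ : A), p₀ ≠ ⊥ ∧ ∀ k, n ≤ k → ∀ F, p₀ ≤ pj e (p ⊓ c k F))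
    (hv : ∀ k F, F.inf (v k) ≠ ⊥ → Adm k F) : Unb e (catM fl Adm c fun k t => e (v k t)) := by
  intro p hp
  obtain ⟨n, p₀, h0, h⟩ := hc p hp
  refine ⟨n, ne_bot_of_le (le_iInf fun l => ?_) h0⟩
  refine (le_inf le_rfl (le_top.trans (top_le_atoms (fl l) (v n)))).trans ?_
  rw [inf_iSup_eq]
  refine iSup_le fun F => ?_
  by_cases hF : F.inf (v n) = ⊥
  · rw [hF, bot_inf_eq, inf_bot_eq]
    exact bot_le
  refine (inf_le_inf (h n le_rfl F) inf_le_right).trans ?_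
  rw [← pj_inf, inf_assoc]
  refine pj_mono e (inf_le_inf_left _ (le_iSup₂_of_le n le_rfl (le_iSup₂_of_le F (hv n F hF) ?_)))
  simp only [map_finset_inf, Function.comp_def, hm_compl, le_refl]

theorem catch_of_unb (hfl : Monotone fl) (hall : ∀ t, ∃ l, t ∈ fl l) (e : Hm A B)
    {c : ℕ → Finset P → B} {v : ℕ → P → A} (z : P → A)
    (H : Unb e (catM fl Adm c fun k t => e (v k t))) {r : B} (hr : r ≠ ⊥)
    (h : ∀ k, r ≤ e (⨆ t, v k t ⊓ z t)) :
    ∃ k F t, Adm k F ∧ t ∈ F ∧ r ⊓ c k F ⊓ e (v k t ⊓ z t) ≠ ⊥ := by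
  obtain ⟨n, hn⟩ := H r hr
  obtain ⟨U, hU, g⟩ := R.exists_gen hn
    (eventually_countable_forall.2 fun k => R.gen_iSup fun t => v k t ⊓ z t)
  have h1 : ∀ k, ∃ l t, t ∈ fl l ∧ U.In (v k t ⊓ z t) := fun k => by
    obtain ⟨t, ht⟩ := (g k).1 (U.mono ((pj_mono e inf_le_left).trans (pj_le.2 (h k)))
      (U.mono (iInf_le _ 0) hU))
    exact (hall t).imp fun l hl => ⟨t, hl, ht⟩
  choose l t h2 h3 using h1
  let L := (Finset.range (n + 1)).sup l
  let a : A := (Finset.range (n + 1)).inf fun k => v k (t k) ⊓ z (t k)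
  have h4 : r ⊓ catM fl Adm c (fun k t => e (v k t)) n L ⊓ e a ≠ ⊥ :=
    inf_map_ne_bot.2 fun h0 => U.not_bot (h0 ▸ U.inf (U.mono (iInf_le _ L) hU)
      ((R.In_finset_inf U _ _).2 fun k _ => h3 k))
  rw [inf_right_comm] at h4
  obtain ⟨k, h4⟩ := exists_inf_ne_bot h4
  obtain ⟨hk, h4⟩ := exists_inf_ne_bot h4
  obtain ⟨F, h4⟩ := exists_inf_ne_bot h4
  obtain ⟨hF, h4⟩ := exists_inf_ne_bot h4
  have hk' := Finset.mem_range.2 (Nat.lt_succ_of_le hk)
  have h5 : e a ≤ e (v k (t k) ⊓ z (t k)) := hm_mono e (Finset.inf_le hk')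
  refine ⟨k, F, t k, hF, ?_, ne_bot_of_le (le_inf (inf_le_inf inf_le_left inf_le_left)
    (inf_le_left.trans (inf_le_right.trans h5))) h4⟩
  by_contra ht
  refine h4 (le_bot_iff.1 ((inf_le_inf (inf_le_right.trans (h5.trans (hm_mono e inf_le_left)))
    (inf_le_right.trans (Finset.inf_le (Finset.mem_sdiff.2
      ⟨hfl (Finset.le_sup (f := l) hk') (h2 k), ht⟩)))).trans inf_compl_eq_bot.le))

theorem exists_fl (P : Type) [Countable P] :
    ∃ fl : ℕ → Finset P, Monotone fl ∧ ∀ t, ∃ l, t ∈ fl l := by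
  obtain ⟨f, hf⟩ := exists_injective_nat P
  exact ⟨fun l => (Finset.range l).preimage f hf.injOn, fun a b h t ht =>
    Finset.mem_preimage.2 (Finset.range_mono h (Finset.mem_preimage.1 ht)),
    fun t => ⟨f t + 1, Finset.mem_preimage.2 (Finset.self_mem_range_succ _)⟩⟩

/-- finite sets of pairs of cost at most `ε / 2 ^ (k + 1)` -/
def AdmC (ε : ℚ) (k : ℕ) (F : Finset (List Bool × ℚ)) : Prop :=
  (∀ t ∈ F, 0 ≤ t.2) ∧ ∑ t ∈ F, t.2 ≤ ε / 2 ^ (k + 1)

/-- the union of the valid parts of the chosen sets -/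
def catW (ε : ℚ) (m : List Bool → ℚ → B) (c : ℕ → Finset (List Bool × ℚ) → B)
    (t : List Bool × ℚ) : B := (⨆ k, ⨆ F, ⨆ _ : AdmC ε k F ∧ t ∈ F, c k F) ⊓ m t.1 t.2

theorem isCov_catW (p : B) {ε : ℚ} (hε : 0 < ε) (m : List Bool → ℚ → B)
    {c : ℕ → Finset (List Bool × ℚ) → B} (hc : ∀ k F F', F ≠ F' → c k F ⊓ c k F' = ⊥) :
    IsCov p m ε (catW ε m c) := by
  classical
  refine ⟨fun t => inf_le_right.trans inf_le_right, fun G hG => ?_⟩
  have h1 : ∀ t, ∀ᶠ U in R.gen B, U.In (catW ε m c t) →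
      ∃ k F, (AdmC ε k F ∧ t ∈ F) ∧ U.In (c k F) := fun t => by
    have e : (⨆ k, ⨆ F, ⨆ _ : AdmC ε k F ∧ t ∈ F, c k F) =
        ⨆ x : {x : ℕ × Finset (List Bool × ℚ) // AdmC ε x.1 x.2 ∧ t ∈ x.2}, c x.1.1 x.1.2 := by
      rw [iSup_subtype, iSup_prod]
    filter_upwards [R.gen_iSup fun x : {x : ℕ × Finset (List Bool × ℚ) //
      AdmC ε x.1 x.2 ∧ t ∈ x.2} => c x.1.1 x.1.2] with U hU h
    obtain ⟨x, hx⟩ := hU.1 (e ▸ (U.inf_iff.1 h).1)
    exact ⟨_, _, x.2, hx⟩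
  obtain ⟨U, hU, g⟩ := R.exists_gen hG (eventually_countable_forall.2 h1)
  choose! k F h2 h3 using fun t (ht : t ∈ G) =>
    g t ((R.In_finset_inf U _ _).1 (U.inf_iff.1 hU).2 t ht)
  have h4 : ∀ j, ∑ t ∈ G with k t = j, t.2 ≤ ε / 2 ^ (j + 1) := fun j => by
    rcases (G.filter fun t => k t = j).eq_empty_or_nonempty with h | ⟨s, hs⟩
    · rw [h, Finset.sum_empty]
      positivity
    obtain rfl := (Finset.mem_filter.1 hs).2
    replace hs := (Finset.mem_filter.1 hs).1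
    refine (Finset.sum_le_sum_of_subset_of_nonneg (fun t ht => ?_)
      fun t ht _ => (h2 s hs).1.1 t ht).trans (h2 s hs).1.2
    obtain ⟨ht, e⟩ := Finset.mem_filter.1 ht
    by_cases hne : F t = F s
    · exact hne ▸ (h2 t ht).2
    · exact (U.not_bot (hc _ _ _ hne ▸ U.inf (e ▸ h3 t ht) (h3 s hs))).elim
  have h5 : ∀ n, ∑ j ∈ Finset.range n, ε / 2 ^ (j + 1) = ε - ε / 2 ^ n := fun n => by
    induction n with
    | zero => simp
    | succ n ih => rw [Finset.sum_range_succ, ih]; ring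
  rw [← Finset.sum_fiberwise_of_maps_to (t := Finset.range (G.sup k + 1)) (g := k) fun t ht =>
    Finset.mem_range.2 (Nat.lt_succ_of_le (Finset.le_sup ht))]
  refine (Finset.sum_le_sum fun j _ => h4 j).trans ?_
  rw [h5]
  exact sub_le_self _ (by positivity)

end Pool.Agent.Lib.MP_f79ffc_lc.U
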